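import Pool.Agent.C4F.StmtsM

/-!
Squad C4F (MP_be2f05_lc), rows BRT AN1 AN2 AN3.
-/

set_option autoImplicit false

open Filter Topology

namespace Pool.Agent.C4F.H56

open Pool.Agent.C4F

/-- BRT -/
theorem brt : BrtStmt := by
  intro K₀
  refine ⟨40 * (K₀ + 3) ^ 2, fun k hk => ?_⟩
  obtain ⟨t, ht⟩ : ∃ t, t = Nat.sqrt (k / 40) := ⟨_, rfl⟩
  have h1 : t ^ 2 ≤ k / 40 := by rw [ht, sq]; exact Nat.sqrt_le _
  have h2 : k / 40 < (t + 1) ^ 2 := by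
    rw [ht, sq]; exact Nat.lt_succ_sqrt _
  have h3 : (K₀ + 3) ^ 2 ≤ k / 40 := by
    rw [Nat.le_div_iff_mul_le (by norm_num)]; linarith
  have h4 : K₀ + 3 ≤ t := by
    by_contra hcon
    push Not at hcon
    have : (t + 1) ^ 2 ≤ (K₀ + 3) ^ 2 := Nat.pow_le_pow_left (by omega) 2
    omega
  obtain ⟨q, hq, hq1, hq2⟩ := Nat.exists_prime_lt_and_le_two_mul t (by omega)
  have h5 : 40 * (k / 40) ≤ k := Nat.mul_div_le k 40
  have h6 : k < 40 * (k / 40) + 40 := by omega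
  have hodd : (q - 1) / 2 * 2 = q - 1 := by
    have : q % 2 = 1 := by
      rcases hq.eq_two_or_odd with h | h
      · omega
      · exact h
    omega
  obtain ⟨r, hr⟩ : ∃ r, r = (q - 1) / 2 := ⟨_, rfl⟩
  rw [← hr] at hodd
  have hq3 : q = 2 * r + 1 := by omega
  refine ⟨q, hq, by omega, ?_, ?_, ?_⟩
  · have : q ^ 2 ≤ (2 * t) ^ 2 := Nat.pow_le_pow_left hq2 2
    have h7 : (2 * t) ^ 2 = 4 * t ^ 2 := by ring
    omega
  · rw [← hr]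
    have : 1 ≤ r := by omega
    calc K₀ ≤ q := by omega
      _ = 1 * q := (one_mul q).symm
      _ ≤ r * q := Nat.mul_le_mul_right q this
  · rw [← hr]
    have h7 : k < 40 * (t + 1) ^ 2 := by
      have : k / 40 + 1 ≤ (t + 1) ^ 2 := h2
      omega
    have h8 : t + 1 ≤ q := hq1
    have h9 : t ≤ 2 * r := by omega
    have h10 : t * (t + 1) ≤ 2 * r * q := Nat.mul_le_mul h9 h8
    nlinarith

/-- a polynomial is bounded by a power -/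
theorem poly_bd (P : Polynomial ℕ) : ∃ A d : ℕ, ∀ x : ℕ, P.eval x ≤ A * (x + 1) ^ d := by
  induction P using Polynomial.induction_on' with
  | add p q hp hq =>
    obtain ⟨A, d, h⟩ := hp
    obtain ⟨B, e, h'⟩ := hq
    refine ⟨A + B, max d e, fun x => ?_⟩
    rw [Polynomial.eval_add, add_mul]
    refine add_le_add ((h x).trans ?_) ((h' x).trans ?_)
    · exact Nat.mul_le_mul_left _ (Nat.pow_le_pow_right (by omega) (le_max_left _ _))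
    · exact Nat.mul_le_mul_left _ (Nat.pow_le_pow_right (by omega) (le_max_right _ _))
  | monomial n a =>
    refine ⟨a, n, fun x => ?_⟩
    rw [Polynomial.eval_monomial]
    exact Nat.mul_le_mul_left _ (Nat.pow_le_pow_left (by omega) _)

/-- powers are smaller than exponentials -/
theorem pow_bd (D : ℕ) (ε : ℝ) (hε : 0 < ε) :
    ∃ C : ℝ, 0 ≤ C ∧ ∀ N : ℕ, ((N : ℝ) + 1) ^ D ≤ C * 2 ^ (ε * (N : ℝ)) := by
  have hr : 1 < (2 : ℝ) ^ ε := Real.one_lt_rpow (by norm_num) hε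
  have h1 := tendsto_pow_const_div_const_pow_of_one_lt D hr
  obtain ⟨B, hB⟩ := h1.bddAbove_range
  have hr0 : 0 < (2 : ℝ) ^ ε := by positivity
  have hB0 : 0 ≤ max B 0 := le_max_right _ _
  refine ⟨max B 0 * 2 ^ ε, by positivity, fun N => ?_⟩
  have h2 : ((N + 1 : ℕ) : ℝ) ^ D / ((2 : ℝ) ^ ε) ^ (N + 1) ≤ B := hB ⟨N + 1, rfl⟩
  rw [div_le_iff₀ (by positivity)] at h2
  have h3 : (2 : ℝ) ^ (ε * (N : ℝ)) = ((2 : ℝ) ^ ε) ^ N := by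
    rw [Real.rpow_mul (by norm_num), Real.rpow_natCast]
  rw [h3]
  calc ((N : ℝ) + 1) ^ D = ((N + 1 : ℕ) : ℝ) ^ D := by push_cast; rfl
    _ ≤ B * ((2 : ℝ) ^ ε) ^ (N + 1) := h2
    _ ≤ max B 0 * ((2 : ℝ) ^ ε) ^ (N + 1) :=
        mul_le_mul_of_nonneg_right (le_max_left _ _) (by positivity)
    _ = max B 0 * 2 ^ ε * ((2 : ℝ) ^ ε) ^ N := by rw [pow_succ]; ring

/-- AN3 -/
theorem an3 : An3Stmt := by
  intro P ε hε
  obtain ⟨A, d, hP⟩ := poly_bd P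
  obtain ⟨C, hC, hpow⟩ := pow_bd (2 * d) ε hε
  refine ⟨A * 5 ^ d * C, by positivity, fun n m => ?_⟩
  have h1 : n + 1 + 3 * m * (n + 1) + 1 ≤ 5 * (n + m + 1) ^ 2 := by nlinarith [Nat.zero_le (n * m), Nat.zero_le (n^2), Nat.zero_le (m^2)]
  have h2 : P.eval (n + 1 + 3 * m * (n + 1)) ≤ A * 5 ^ d * (n + m + 1) ^ (2 * d) := by
    refine (hP _).trans ?_
    calc A * (n + 1 + 3 * m * (n + 1) + 1) ^ d ≤ A * (5 * (n + m + 1) ^ 2) ^ d :=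
          Nat.mul_le_mul_left _ (Nat.pow_le_pow_left h1 d)
      _ = A * 5 ^ d * (n + m + 1) ^ (2 * d) := by rw [mul_pow, pow_mul]; ring
  have h3 := hpow (n + m)
  push_cast at h3
  calc ((P.eval (n + 1 + 3 * m * (n + 1)) : ℕ) : ℝ)
      ≤ ((A * 5 ^ d * (n + m + 1) ^ (2 * d) : ℕ) : ℝ) := by exact_mod_cast h2
    _ = (A : ℝ) * 5 ^ d * ((n : ℝ) + m + 1) ^ (2 * d) := by push_cast; ring
    _ ≤ (A : ℝ) * 5 ^ d * (C * 2 ^ (ε * ((n : ℝ) + m))) :=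
        mul_le_mul_of_nonneg_left h3 (by positivity)
    _ = (A : ℝ) * 5 ^ d * C * 2 ^ (ε * ((n : ℝ) + m)) := by ring

/-- AN1 -/
theorem an1 : An1Stmt := by
  intro P ε hε
  obtain ⟨A, d, hP⟩ := poly_bd P
  obtain ⟨C, hC, hpow⟩ := pow_bd (2 * d) (ε / 2) (by positivity)
  obtain ⟨K₀, hK₀⟩ := exists_nat_ge (12 * (d : ℝ) / ε)
  refine ⟨K₀ + 1, fun q hq k => ?_⟩
  obtain ⟨κ, hκ⟩ : ∃ κ, κ = (q - 1) / 2 * q := ⟨_, rfl⟩
  rw [← hκ] at hq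
  have hκ0 : 0 < κ := by omega
  have hκr : (0 : ℝ) < κ := by exact_mod_cast hκ0
  have hdκ : 12 * (d : ℝ) ≤ ε * κ := by
    have h1 : (K₀ : ℝ) ≤ κ := by exact_mod_cast (by omega : K₀ ≤ κ)
    have h2 : 12 * (d : ℝ) / ε ≤ κ := hK₀.trans h1
    rw [div_le_iff₀ hε] at h2
    linarith
  refine ⟨A * (2 * ((q : ℝ) + k + 11)) ^ d * (2 : ℝ) ^ (2 * d * (3 + κ ^ 2)) * C,
    by positivity, fun n m => ?_⟩
  obtain ⟨W, hW⟩ : ∃ W, W = wid q m := ⟨_, rfl⟩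
  have hWv : W = 3 * (m / κ + 1) + κ ^ 2 := by rw [hW, wid, hκ]
  rw [← hW]
  have h1 : (W + 1) * 2 ^ W ≤ 2 ^ (2 * W) := by
    have : W + 1 ≤ 2 ^ W := Nat.lt_two_pow_self
    calc (W + 1) * 2 ^ W ≤ 2 ^ W * 2 ^ W := Nat.mul_le_mul_right _ this
      _ = 2 ^ (2 * W) := by rw [← pow_add]; congr 1; ring
  have h2 : q + k + n + m + 3 * m * n + 7 + (W + 1) * 2 ^ W + 1 ≤
      2 * (q + k + 11) * (n + m + 1) ^ 2 * 2 ^ (2 * W) := by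
    have hb : 1 ≤ 2 ^ (2 * W) := Nat.one_le_two_pow
    have ha : q + k + n + m + 3 * m * n + 8 ≤ (q + k + 11) * (n + m + 1) ^ 2 := by
      have e1 : 1 ≤ (n + m + 1) ^ 2 := Nat.one_le_pow _ _ (by omega)
      have e2 : (q + k + 8) * 1 ≤ (q + k + 8) * (n + m + 1) ^ 2 := Nat.mul_le_mul_left _ e1
      have e3 : n + m + 3 * m * n ≤ 3 * (n + m + 1) ^ 2 := by
        nlinarith [Nat.zero_le (n * m), Nat.zero_le (n^2), Nat.zero_le (m^2)]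
      nlinarith
    obtain ⟨a, haa⟩ : ∃ a, a = (q + k + 11) * (n + m + 1) ^ 2 := ⟨_, rfl⟩
    obtain ⟨b, hbb⟩ : ∃ b, b = 2 ^ (2 * W) := ⟨_, rfl⟩
    rw [← haa] at ha
    rw [← hbb] at hb h1
    have e4 : 2 * (q + k + 11) * (n + m + 1) ^ 2 * 2 ^ (2 * W) = 2 * a * b := by
      rw [haa, hbb]; ring
    rw [e4]
    have e5 : 1 ≤ a := by omega
    nlinarith [Nat.mul_le_mul e5 hb, Nat.mul_le_mul (le_refl a) hb, Nat.mul_le_mul e5 (le_refl b)]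
  have h3 : P.eval (q + k + n + m + 3 * m * n + 7 + (W + 1) * 2 ^ W) ≤
      A * (2 * (q + k + 11) * (n + m + 1) ^ 2 * 2 ^ (2 * W)) ^ d :=
    (hP _).trans (Nat.mul_le_mul_left _ (Nat.pow_le_pow_left h2 d))
  have h4 : ((2 : ℝ) ^ (2 * W)) ^ d ≤
      (2 : ℝ) ^ (2 * d * (3 + κ ^ 2)) * 2 ^ (ε / 2 * ((n : ℝ) + m)) := by
    have e1 : ((2 : ℝ) ^ (2 * W)) ^ d = (2 : ℝ) ^ (2 * d * (3 + κ ^ 2)) *
        (2 : ℝ) ^ (6 * d * (m / κ)) := by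
      rw [← pow_mul, ← pow_add, hWv]
      congr 1
      ring
    rw [e1]
    refine mul_le_mul_of_nonneg_left ?_ (by positivity)
    rw [← Real.rpow_natCast]
    refine Real.rpow_le_rpow_of_exponent_le (by norm_num) ?_
    push_cast
    have e2 : ((m / κ : ℕ) : ℝ) ≤ (m : ℝ) / κ := Nat.cast_div_le
    have e3 : 6 * (d : ℝ) * ((m / κ : ℕ) : ℝ) ≤ 6 * (d : ℝ) * ((m : ℝ) / κ) :=
      mul_le_mul_of_nonneg_left e2 (by positivity)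
    have e4 : 6 * (d : ℝ) * ((m : ℝ) / κ) ≤ ε / 2 * (m : ℝ) := by
      rw [← mul_div_assoc, div_le_iff₀ hκr]
      have hm : (0 : ℝ) ≤ m := by positivity
      nlinarith [mul_le_mul_of_nonneg_right hdκ hm]
    have e5 : (0 : ℝ) ≤ ε / 2 * n := by positivity
    push_cast at e3 e4
    linarith
  have h5 := hpow (n + m)
  push_cast at h5
  have h6 : (2 : ℝ) ^ (ε / 2 * ((n : ℝ) + m)) * 2 ^ (ε / 2 * ((n : ℝ) + m)) =
      2 ^ (ε * ((n : ℝ) + m)) := by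
    rw [← Real.rpow_add (by norm_num)]
    congr 1
    ring
  calc ((P.eval (q + k + n + m + 3 * m * n + 7 + (W + 1) * 2 ^ W) : ℕ) : ℝ)
      ≤ ((A * (2 * (q + k + 11) * (n + m + 1) ^ 2 * 2 ^ (2 * W)) ^ d : ℕ) : ℝ) := by
        exact_mod_cast h3
    _ = (A : ℝ) * (2 * ((q : ℝ) + k + 11)) ^ d * ((n : ℝ) + m + 1) ^ (2 * d) *
          ((2 : ℝ) ^ (2 * W)) ^ d := by
        push_cast
        rw [mul_pow, mul_pow, ← pow_mul, ← pow_mul]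
        ring
    _ ≤ (A : ℝ) * (2 * ((q : ℝ) + k + 11)) ^ d * (C * 2 ^ (ε / 2 * ((n : ℝ) + m))) *
          ((2 : ℝ) ^ (2 * d * (3 + κ ^ 2)) * 2 ^ (ε / 2 * ((n : ℝ) + m))) := by
        refine mul_le_mul (mul_le_mul_of_nonneg_left h5 (by positivity)) h4 (by positivity)
          (by positivity)
    _ = (A : ℝ) * (2 * ((q : ℝ) + k + 11)) ^ d * (2 : ℝ) ^ (2 * d * (3 + κ ^ 2)) * C *
          (2 ^ (ε / 2 * ((n : ℝ) + m)) * 2 ^ (ε / 2 * ((n : ℝ) + m))) := by ring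
    _ = (A : ℝ) * (2 * ((q : ℝ) + k + 11)) ^ d * (2 : ℝ) ^ (2 * d * (3 + κ ^ 2)) * C *
          2 ^ (ε * ((n : ℝ) + m)) := by rw [h6]

/-- AN2 -/
theorem an2 : An2Stmt := by
  intro ε hε q k hκ hk C₀
  obtain ⟨κ, hκd⟩ : ∃ κ, κ = (q - 1) / 2 * q := ⟨_, rfl⟩
  rw [← hκd] at hκ hk
  obtain ⟨E, hE⟩ : ∃ E : ℝ, E = ε / 360 * k := ⟨_, rfl⟩
  have hE0 : 0 ≤ E := by rw [hE]; positivity
  refine ⟨|C₀| * (((k : ℝ) + 1) ^ E * 2 ^ ((3 + (κ : ℝ) ^ 2) * E)), by positivity, fun m => ?_⟩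
  obtain ⟨W, hW⟩ : ∃ W, W = wid q m := ⟨_, rfl⟩
  have hWv : W = 3 * (m / κ + 1) + κ ^ 2 := by rw [hW, wid, hκd]
  rw [← hW, ← hE]
  have h1 : ((k * 2 ^ W : ℕ) : ℝ) + 1 ≤ ((k : ℝ) + 1) * 2 ^ W := by
    push_cast
    have : (1 : ℝ) ≤ 2 ^ W := one_le_pow₀ (by norm_num)
    nlinarith
  have h2 : (((k * 2 ^ W : ℕ) : ℝ) + 1) ^ E ≤ (((k : ℝ) + 1) * 2 ^ W) ^ E :=
    Real.rpow_le_rpow (by positivity) h1 hE0
  have h3 : (((k : ℝ) + 1) * 2 ^ W) ^ E = ((k : ℝ) + 1) ^ E * 2 ^ ((W : ℝ) * E) := by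
    rw [Real.mul_rpow (by positivity) (by positivity), ← Real.rpow_natCast 2 W,
      ← Real.rpow_mul (by norm_num)]
  have h4 : (W : ℝ) * E ≤ (3 + (κ : ℝ) ^ 2) * E + ε * m := by
    have e1 : (W : ℝ) = 3 * ((m / κ : ℕ) : ℝ) + (3 + (κ : ℝ) ^ 2) := by
      rw [hWv]; push_cast; ring
    have e2 : ((m / κ : ℕ) : ℝ) * κ ≤ m := by exact_mod_cast Nat.div_mul_le_self m κ
    have e3 : (k : ℝ) ≤ 120 * κ := by exact_mod_cast hk
    have e4 : 3 * ((m / κ : ℕ) : ℝ) * E ≤ ε * m := by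
      rw [hE]
      have e5 : (0 : ℝ) ≤ ((m / κ : ℕ) : ℝ) := by positivity
      have e6 : ((m / κ : ℕ) : ℝ) * k ≤ 120 * m := by
        calc ((m / κ : ℕ) : ℝ) * k ≤ ((m / κ : ℕ) : ℝ) * (120 * κ) :=
              mul_le_mul_of_nonneg_left e3 e5
          _ = 120 * (((m / κ : ℕ) : ℝ) * κ) := by ring
          _ ≤ 120 * m := by linarith
      calc 3 * ((m / κ : ℕ) : ℝ) * (ε / 360 * k) = ε / 120 * (((m / κ : ℕ) : ℝ) * k) := by ring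
        _ ≤ ε / 120 * (120 * m) := mul_le_mul_of_nonneg_left e6 (by positivity)
        _ = ε * m := by ring
    rw [e1, add_mul]
    linarith
  have h5 : (2 : ℝ) ^ ((W : ℝ) * E) ≤ 2 ^ ((3 + (κ : ℝ) ^ 2) * E) * 2 ^ (ε * (m : ℝ)) := by
    rw [← Real.rpow_add (by norm_num)]
    exact Real.rpow_le_rpow_of_exponent_le (by norm_num) h4
  calc C₀ * (((k * 2 ^ W : ℕ) : ℝ) + 1) ^ E ≤ |C₀| * (((k * 2 ^ W : ℕ) : ℝ) + 1) ^ E :=
        mul_le_mul_of_nonneg_right (le_abs_self _) (by positivity)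
    _ ≤ |C₀| * (((k : ℝ) + 1) ^ E * (2 ^ ((3 + (κ : ℝ) ^ 2) * E) * 2 ^ (ε * (m : ℝ)))) := by
        refine mul_le_mul_of_nonneg_left ?_ (abs_nonneg _)
        refine h2.trans ?_
        rw [h3]
        exact mul_le_mul_of_nonneg_left h5 (by positivity)
    _ = |C₀| * (((k : ℝ) + 1) ^ E * 2 ^ ((3 + (κ : ℝ) ^ 2) * E)) * 2 ^ (ε * (m : ℝ)) := by ring

end Pool.Agent.C4F.H56
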